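import Mathlib

/-!
# Project AS (helper757): statements of the leaves on polynomials (Mathlib only)
-/

set_option autoImplicit false

namespace Pool.Agent.N757.AS

open Polynomial

/-- **AS/DZ** existence of Davenport-Zannier pairs: `A ^ a - B ^ b` of the smallest possible degree -/
def StmDZ : Prop := ∀ (F : Type) [Field F] [CharZero F] [IsAlgClosed F] (a b : ℕ), 1 ≤ a → 1 ≤ b →
  Nat.Coprime a b → ∃ A B : F[X], A.Monic ∧ B.Monic ∧ A.natDegree = b ∧ B.natDegree = a ∧
    A ^ a ≠ B ^ b ∧ (A ^ a - B ^ b).natDegree + a + b ≤ a * b + 1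

/-- **AS/COP** such a pair is coprime (Mason-Stothers) -/
def StmCop : Prop := ∀ (k : Type) [Field k] [CharZero k] (a b : ℕ) (A B : k[X]), 1 ≤ a → 1 ≤ b →
  A.Monic → B.Monic → A.natDegree = b → B.natDegree = a → A ^ a ≠ B ^ b →
    (A ^ a - B ^ b).natDegree + a + b ≤ a * b + 1 → IsCoprime A B

/-- **AS/TWO** `A ^ p - B ^ q` has two different roots (Mason-Stothers) -/
def StmTwo : Prop := ∀ (F : Type) [Field F] [CharZero F] [IsAlgClosed F] (p q : ℕ) (A B : F[X]),
  1 ≤ p → 1 ≤ q → 1 ≤ A.natDegree → IsCoprime A B → p * A.natDegree = q * B.natDegree →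
    A.natDegree + B.natDegree + 1 ≤ p * A.natDegree →
    ∃ α β : F, α ≠ β ∧ (A ^ p - B ^ q).eval α = 0 ∧ (A ^ p - B ^ q).eval β = 0

/-- the polynomials of a cover of the line with stacky points of orders `p`, `q` -/
def Data (k : Type) [Field k] (p q : ℕ) (A B U : k[X]) : Prop :=
  A.Monic ∧ B.Monic ∧ p * A.natDegree = q * B.natDegree ∧ IsCoprime A B ∧ U ≠ 0 ∧
    A ^ p - B ^ q = X * (X - 1) * U ∧ U.natDegree + A.natDegree + B.natDegree + 1 ≤ p * A.natDegree

/-- **AS/DATA** the covers exist over algebraically closed fields -/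
def StmData : Prop := ∀ (F : Type) [Field F] [CharZero F] [IsAlgClosed F] (p q : ℕ), 2 ≤ p → 2 ≤ q →
  ¬ (p = 2 ∧ q = 2) → ∃ A B U : F[X], Data F p q A B U

/-- **AS/FLD** a number field `k` such that the cover exists over all fields containing `k` -/
def StmFld : Prop := ∀ (p q : ℕ), 2 ≤ p → 2 ≤ q → ¬ (p = 2 ∧ q = 2) →
  ∃ (k : Type) (_ : Field k) (_ : NumberField k), ∀ (K : Type) [Field K] [NumberField K],
    (k →+* K) → ∃ A B U : K[X], Data K p q A B U

/-- **AS/CMP** compositum of two number fields -/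
def StmCmp : Prop := ∀ (k K : Type) [Field k] [NumberField k] [Field K] [NumberField K],
  ∃ (L : Type) (_ : Field L) (_ : NumberField L) (_ : Algebra K L), Nonempty (k →+* L)

end Pool.Agent.N757.AS
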