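import Pool.Agent.N757.SL.Final
import Pool.Agent.N490.FR.HtPure
import Pool.Agent.N757.AS.Stm

/-!
# Stacky lines: the cover lemma for maps with coefficients in the number field
-/

set_option autoImplicit false

namespace Pool.Agent.N757.AS

open NumberField IsDedekindDomain Height Real Polynomial Pool.Agent.N757.RD Pool.Agent.N757.TL
  Pool.Agent.N757.SL

variable {K : Type} [Field K] [NumberField K]

/-! ### local estimates -/

/-- the coefficients of `P` are integral at `v` -/
def Intg (v : HeightOneSpectrum (𝓞 K)) (P : K[X]) : Prop := ∀ i, FinitePlace.mk v (P.coeff i) ≤ 1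

/-- the primes at which the coefficients are not integral -/
def badOf (P : K[X]) : Set (HeightOneSpectrum (𝓞 K)) := {v | ¬ Intg v P}

theorem finite_badOf (P : K[X]) : (badOf P).Finite := by
  classical
  have hsub : badOf P ⊆ ⋃ i ∈ P.support, {v | FinitePlace.mk v (P.coeff i) ≠ 1} := by
    intro v hv
    unfold badOf Intg at hv
    simp only [Set.mem_ofPred_eq, not_forall, not_le] at hv
    obtain ⟨i, hi⟩ := hv
    have h0 : P.coeff i ≠ 0 := by
      intro h0
      rw [h0, map_zero] at hi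
      exact absurd hi (by norm_num)
    simp only [Set.mem_iUnion]
    exact ⟨i, mem_support_iff.2 h0, ne_of_gt hi⟩
  refine Set.Finite.subset ?_ hsub
  refine Set.Finite.biUnion P.support.finite_toSet fun i hi => ?_
  exact finite_ne_one (mem_support_iff.1 hi)

theorem intg_eval {v : HeightOneSpectrum (𝓞 K)} {P : K[X]} (hP : Intg v P) (x : K) {n : ℕ}
    (hn : P.natDegree ≤ n) : FinitePlace.mk v (P.eval x) ≤ max 1 (FinitePlace.mk v x) ^ n := by
  rw [eval_eq_sum_range]
  have h0 : (1 : ℝ) ≤ max 1 (FinitePlace.mk v x) := le_max_left _ _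
  refine fin_sum_le v _ _ (by positivity) fun i hi => ?_
  rw [map_mul, map_pow]
  calc FinitePlace.mk v (P.coeff i) * FinitePlace.mk v x ^ i
      ≤ 1 * max 1 (FinitePlace.mk v x) ^ i := by
        refine mul_le_mul (hP i) ?_ (by positivity) zero_le_one
        exact pow_le_pow_left₀ (apply_nonneg _ _) (le_max_right _ _) _
    _ = max 1 (FinitePlace.mk v x) ^ i := one_mul _
    _ ≤ max 1 (FinitePlace.mk v x) ^ n := pow_le_pow_right₀ h0 (by
        have := Finset.mem_range.1 hi; omega)

theorem intg_eval_one {v : HeightOneSpectrum (𝓞 K)} {P : K[X]} (hP : Intg v P) {x : K}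
    (hx : FinitePlace.mk v x ≤ 1) : FinitePlace.mk v (P.eval x) ≤ 1 := by
  have := intg_eval hP x le_rfl
  rwa [max_eq_left hx, one_pow] at this

/-- a monic polynomial is the power plus lower terms -/
theorem monic_split {F : K[X]} {N : ℕ} (hN : 1 ≤ N) (hF : F.Monic) (dF : F.natDegree = N) :
    ∃ L : K[X], F = X ^ N + L ∧ L.natDegree ≤ N - 1 ∧ ∀ v : HeightOneSpectrum (𝓞 K), Intg v F → Intg v L := by
  refine ⟨F - X ^ N, by ring, ?_, ?_⟩
  · have h1 : (F - X ^ N).degree < F.degree := by
      refine degree_sub_lt ?_ hF.ne_zero ?_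
      · rw [degree_X_pow, degree_eq_natDegree hF.ne_zero, dF]
      · rw [hF.leadingCoeff, (monic_X_pow N).leadingCoeff]
    by_cases h0 : F - X ^ N = 0
    · rw [h0]; simp
    · rw [degree_eq_natDegree h0, degree_eq_natDegree hF.ne_zero] at h1
      have : (F - X ^ N).natDegree < F.natDegree := by exact_mod_cast h1
      omega
  · intro v hv i
    rw [coeff_sub, coeff_X_pow]
    split_ifs with hi
    · have : F.coeff i = 1 := by
        rw [hi, ← dF]; exact hF
      rw [this, sub_self, map_zero]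
      exact zero_le_one
    · rw [sub_zero]; exact hv i

theorem fin_topK {F : K[X]} {N : ℕ} (hN : 1 ≤ N) (hF : F.Monic) (dF : F.natDegree = N)
    {v : HeightOneSpectrum (𝓞 K)} (hv : Intg v F) {x : K} (hx : 1 < FinitePlace.mk v x) :
    FinitePlace.mk v x ^ N ≤ FinitePlace.mk v (F.eval x) := by
  obtain ⟨L, hL, dL, hI⟩ := monic_split hN hF dF
  have h1 : x ^ N = F.eval x + -(L.eval x) := by
    rw [hL, eval_add, eval_pow, eval_X]; ring
  have h2 := fin_add_le v (F.eval x) (-(L.eval x))
  rw [← h1, map_pow, map_neg_eq_map] at h2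
  have h3 := intg_eval (hI v hv) x dL
  rw [max_eq_right hx.le] at h3
  have h4 : FinitePlace.mk v x ^ (N - 1) < FinitePlace.mk v x ^ N :=
    pow_lt_pow_right₀ hx (by omega)
  rcases le_max_iff.1 h2 with h5 | h5
  · exact h5
  · linarith

/-- the sum of the absolute values of the coefficients -/
noncomputable def cs (α : AbsoluteValue K ℝ) (P : K[X]) : ℝ :=
  ∑ i ∈ Finset.range (P.natDegree + 1), α (P.coeff i)

theorem cs_nonneg (α : AbsoluteValue K ℝ) (P : K[X]) : 0 ≤ cs α P :=
  Finset.sum_nonneg fun _ _ => apply_nonneg _ _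

theorem abs_eval_le (α : AbsoluteValue K ℝ) (P : K[X]) {n : ℕ} (hn : P.natDegree ≤ n) {x : K}
    (hx : 1 ≤ α x) : α (P.eval x) ≤ cs α P * α x ^ n := by
  rw [eval_eq_sum_range, cs, Finset.sum_mul]
  refine (α.sum_le _ _).trans (Finset.sum_le_sum fun i hi => ?_)
  rw [map_mul, map_pow]
  refine mul_le_mul_of_nonneg_left ?_ (apply_nonneg _ _)
  exact pow_le_pow_right₀ hx (by have := Finset.mem_range.1 hi; omega)

/-- the values of `F / G` tend to infinity -/
theorem near_ratioK (v : Pl K) {F G : K[X]} {N : ℕ} (hN : 1 ≤ N) (hF : F.Monic)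
    (dF : F.natDegree = N) (dG : G.natDegree ≤ N - 1) (B : ℝ) (hB : 0 < B) :
    ∃ R : ℝ, ∀ x : K, G.eval x ≠ 0 → R ≤ av v x → B ≤ av v (F.eval x / G.eval x) := by
  obtain ⟨L, hL, dL, -⟩ := monic_split hN hF dF
  have hc1 := cs_nonneg (av v) L
  have hc2 := cs_nonneg (av v) G
  refine ⟨cs (av v) L + B * cs (av v) G + 1, fun x hG hx => ?_⟩
  have hx1 : 1 ≤ av v x := by nlinarith
  have hG0 : 0 < av v (G.eval x) := (av v).pos hG
  rw [map_div₀, le_div_iff₀ hG0]
  have h1 := abs_eval_le (av v) G dG hx1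
  have h2 := abs_eval_le (av v) L dL hx1
  have h3 : av v (x ^ N) ≤ av v (F.eval x) + av v (L.eval x) := by
    have e : x ^ N = F.eval x + -(L.eval x) := by
      rw [hL, eval_add, eval_pow, eval_X]; ring
    rw [e]
    refine ((av v).add_le _ _).trans ?_
    rw [(av v).map_neg]
  rw [map_pow] at h3
  have h4 : av v x ^ N = av v x ^ (N - 1) * av v x := by
    rw [← pow_succ]; congr 1; omega
  have h5 : 0 ≤ av v x ^ (N - 1) := by positivity
  have h6 : B * av v (G.eval x) ≤ B * (cs (av v) G * av v x ^ (N - 1)) :=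
    mul_le_mul_of_nonneg_left h1 hB.le
  have h7 : (cs (av v) L + B * cs (av v) G + 1) * av v x ^ (N - 1) ≤ av v x * av v x ^ (N - 1) :=
    mul_le_mul_of_nonneg_right hx h5
  nlinarith

/-- the roots of a polynomial have bounded height -/
theorem roots_bddK {V : K[X]} (hV : V ≠ 0) : ∃ C : ℝ, 0 ≤ C ∧ ∀ x : K, V.eval x = 0 → D x ≤ C := by
  classical
  have hfin : {x : K | V.eval x = 0}.Finite := by
    refine (V.roots.toFinset.finite_toSet).subset fun x hx => ?_
    rw [Finset.mem_coe, Multiset.mem_toFinset, mem_roots hV]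
    exact hx
  obtain ⟨C, hC⟩ := (hfin.image D).bddAbove
  exact ⟨max C 0, le_max_right _ _, fun x hx => (hC ⟨x, hx, rfl⟩).trans (le_max_left _ _)⟩

theorem D_eval_leK (U : K[X]) : ∃ C : ℝ, 0 ≤ C ∧ ∀ x : K, D (U.eval x) ≤ U.natDegree * D x + C := by
  obtain ⟨C, hC⟩ := Pool.Agent.N490.FR.upper (K := K) U 1 1
  refine ⟨|C|, abs_nonneg _, fun x => ?_⟩
  have h := hC K x (Module.finrank_self K)
  rw [map_one, div_one, natDegree_one, max_eq_left (Nat.zero_le _), coe_aeval_eq_eval] at h
  exact h.trans (by linarith [le_abs_self C])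

theorem D_ratio_geK {F G : K[X]} (h : IsCoprime F G) : ∃ C : ℝ, 0 ≤ C ∧ ∀ x : K,
    (F.natDegree : ℝ) * D x ≤ D (F.eval x / G.eval x) + C := by
  obtain ⟨C, hC⟩ := Pool.Agent.N490.FR.lower (K := K) F G h 1
  refine ⟨|C|, abs_nonneg _, fun x => ?_⟩
  have h := hC K x (Module.finrank_self K)
  rw [coe_aeval_eq_eval] at h
  have h1 : (F.natDegree : ℝ) * D x ≤ (max F.natDegree G.natDegree : ℕ) * D x :=
    mul_le_mul_of_nonneg_right (by exact_mod_cast le_max_left _ _) (D_nonneg x)
  exact h1.trans (h.trans (by linarith [le_abs_self C]))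

end Pool.Agent.N757.AS
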