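import Pool.Agent.N757.AS.CoverK

/-!
# Stacky lines: from the data of a cover over `K` to the abc conjecture over `K`
-/

set_option autoImplicit false

namespace Pool.Agent.N757.AS

open NumberField IsDedekindDomain Height Real Polynomial Pool.Agent.N757.RD Pool.Agent.N757.TL
  Pool.Agent.N757.SL

variable {K : Type} [Field K] [NumberField K]

theorem theta_pos {p q : ℕ} (hp : 2 ≤ p) (hq : 2 ≤ q) (hpq : ¬ (p = 2 ∧ q = 2)) :
    0 < 1 - 1 / (p : ℝ) - 1 / (q : ℝ) := by
  have h4 := inv_le_half (p := p) (Or.inr hp)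
  have h5 := inv_le_half (p := q) (Or.inr hq)
  have key : ∀ n : ℕ, 3 ≤ n → 1 / (n : ℝ) < 1 / 2 := by
    intro n hn
    exact one_div_lt_one_div_of_lt (by norm_num) (by exact_mod_cast (by omega : 2 < n))
  by_cases h2 : p = 2
  · have := key q (by omega)
    linarith
  · have := key p (by omega)
    linarith

/-- **The cover lemma over `K`.** -/
theorem coverK {p q : ℕ} (hp : 2 ≤ p) (hq : 2 ≤ q) (hpq : ¬ (p = 2 ∧ q = 2)) {A B U : K[X]}
    (hdata : Data K p q A B U) (S : Set (HeightOneSpectrum (𝓞 K))) (h : Some' p q S) :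
    Some' 0 0 S := by
  classical
  obtain ⟨T, δ, hδ, h⟩ := h
  obtain ⟨hA, hB, hdeg, hcop, hU, eG, hcount⟩ := hdata
  have hθ := theta_pos hp hq hpq
  obtain ⟨N, hN⟩ : ∃ N, N = p * A.natDegree := ⟨_, rfl⟩
  rw [← hN] at hdeg hcount
  have hN1 : 1 ≤ N := by omega
  obtain ⟨F, hF⟩ : ∃ F : K[X], F = A ^ p := ⟨_, rfl⟩
  obtain ⟨E, hE⟩ : ∃ E : K[X], E = B ^ q := ⟨_, rfl⟩
  obtain ⟨G, hG⟩ : ∃ G : K[X], G = A ^ p - B ^ q := ⟨_, rfl⟩
  rw [← hG] at eG
  have mF : F.Monic := by rw [hF]; exact hA.pow p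
  have mE : E.Monic := by rw [hE]; exact hB.pow q
  have dF : F.natDegree = N := by rw [hF, hA.natDegree_pow, hN]
  have dE : E.natDegree = N := by rw [hE, hB.natDegree_pow, hdeg]
  have hGFE : G = F - E := by rw [hG, hF, hE]
  have hX1 : (X - 1 : K[X]) ≠ 0 := by
    rw [show (1 : K[X]) = C 1 by simp]; exact X_sub_C_ne_zero 1
  have hG0 : G ≠ 0 := by
    rw [eG]; exact mul_ne_zero (mul_ne_zero X_ne_zero hX1) hU
  have dG : G.natDegree ≤ N - 1 := by
    have h1 : (F - E).degree < F.degree := by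
      refine degree_sub_lt ?_ mF.ne_zero ?_
      · rw [degree_eq_natDegree mF.ne_zero, degree_eq_natDegree mE.ne_zero, dF, dE]
      · rw [mF.leadingCoeff, mE.leadingCoeff]
    rw [← hGFE, degree_eq_natDegree hG0, degree_eq_natDegree mF.ne_zero, dF] at h1
    have : G.natDegree < N := by exact_mod_cast h1
    omega
  have hFE : IsCoprime F E := by rw [hF, hE]; exact hcop.pow
  have hFG : IsCoprime F G := by
    rw [hGFE, sub_eq_add_neg, add_comm, ← mul_one F]
    have := (IsCoprime.neg_right hFE).add_mul_left_right 1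
    simpa using this
  obtain ⟨u, w, huw⟩ := id hFG
  -- the bad primes
  obtain ⟨Bad, hBad⟩ : ∃ Z : Set (HeightOneSpectrum (𝓞 K)),
    Z = badOf A ∪ (badOf B ∪ (badOf U ∪ (badOf u ∪ badOf w))) := ⟨_, rfl⟩
  have hbad : Bad.Finite := by
    rw [hBad]
    exact (finite_badOf A).union ((finite_badOf B).union ((finite_badOf U).union
      ((finite_badOf u).union (finite_badOf w))))
  have hgood : ∀ v : HeightOneSpectrum (𝓞 K), v ∉ Bad →
      Intg v A ∧ Intg v B ∧ Intg v U ∧ Intg v u ∧ Intg v w := by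
    intro v hv
    rw [hBad] at hv
    simp only [Set.mem_union, badOf, Set.mem_ofPred_eq, not_or, not_not] at hv
    exact hv
  obtain ⟨T', hT'⟩ : ∃ T' : Finset (Pl K), T' = T ∪ (Finset.disjSum ∅ hbad.toFinset) := ⟨_, rfl⟩
  have hTT' : ∀ v ∈ T, v ∈ T' := fun v hv => by rw [hT']; exact Finset.mem_union_left _ hv
  have hBT' : ∀ v ∈ Bad, (Sum.inr v : Pl K) ∈ T' := fun v hv => by
    rw [hT']
    exact Finset.mem_union_right _ (Finset.inr_mem_disjSum.2 (hbad.mem_toFinset.2 hv))
  have hδ₁ : 0 < min δ (1 / 2) := lt_min hδ (by norm_num)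
  obtain ⟨δ', hδ', hn⟩ := near_all (P := fun x : K => G.eval x ≠ 0)
    (f := fun x => F.eval x / G.eval x) T'
    (fun v _ R hR => near_ratioK v hN1 mF dF dG R hR) hδ₁
  obtain ⟨C1, hC1, hge⟩ := D_ratio_geK hFG
  obtain ⟨C2, hC2, hrF⟩ := roots_bddK (K := K) mF.ne_zero
  obtain ⟨C3, hC3, hrE⟩ := roots_bddK (K := K) mE.ne_zero
  obtain ⟨C4, hC4, hrU⟩ := roots_bddK (K := K) hU
  obtain ⟨C5, hC5, hDU⟩ := D_eval_leK (K := K) U
  have hd := dg_pos (K := K)
  have hWb : 0 ≤ W Bad := W_nonneg _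
  obtain ⟨C, hC⟩ : ∃ C : ℝ, C = C1 + C2 + C3 + C4 + C5 + W Bad := ⟨_, rfl⟩
  refine ⟨T', δ', hδ', ?_⟩
  refine stepθ (h := D) (r := fun x => W (J 0 0 S x)) (N := (N : ℝ)) (C := C)
    (θ' := 1 - 1 / (p : ℝ) - 1 / (q : ℝ)) D_nonneg (fun x => W_nonneg _) (by exact_mod_cast hN1)
    (by rw [hC]; positivity) hθ ?_ h
  rintro x ⟨hx0, hx1, -, hclose⟩
  by_cases hFx : F.eval x = 0
  · left
    have := hrF x hFx
    rw [hC]; linarith
  by_cases hEx : E.eval x = 0
  · left
    have := hrE x hEx
    rw [hC]; linarith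
  by_cases hUx : U.eval x = 0
  · left
    have := hrU x hUx
    rw [hC]; linarith
  right
  have hx1' : x - 1 ≠ 0 := sub_ne_zero.2 hx1
  have eGx : G.eval x = x * (x - 1) * U.eval x := by
    rw [eG, eval_mul, eval_mul, eval_sub, eval_X, eval_one]
  have hGx : G.eval x ≠ 0 := by
    rw [eGx]; exact mul_ne_zero (mul_ne_zero hx0 hx1') hUx
  have eFx : F.eval x = A.eval x ^ p := by rw [hF, eval_pow]
  have eEx : E.eval x = B.eval x ^ q := by rw [hE, eval_pow]
  have eGFE : G.eval x = F.eval x - E.eval x := by rw [hGFE, eval_sub]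
  have euw : u.eval x * F.eval x + w.eval x * G.eval x = 1 := by
    have := congrArg (eval x) huw
    rwa [eval_add, eval_mul, eval_mul, eval_one] at this
  obtain ⟨φ, hφ⟩ : ∃ φ : K, φ = F.eval x / G.eval x := ⟨_, rfl⟩
  have h1φ : 1 - φ = -E.eval x / G.eval x := by
    rw [hφ, eq_div_iff hGx, sub_mul, div_mul_cancel₀ _ hGx, eGFE]; ring
  have hnear := hn x hGx hclose
  -- local analysis
  have local1 : ∀ v : HeightOneSpectrum (𝓞 K), v ∈ Bad → 1 < FinitePlace.mk v φ := by
    intro v hv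
    have h1 := hnear _ (hBT' v hv)
    simp only [av_inr] at h1
    rw [← hφ] at h1
    have h2 : min δ (1 / 2) * FinitePlace.mk v φ ≤ 1 / 2 * FinitePlace.mk v φ :=
      mul_le_mul_of_nonneg_right (min_le_right _ _) (apply_nonneg _ _)
    linarith
  have hIF : ∀ v : HeightOneSpectrum (𝓞 K), v ∉ Bad → ∀ {P : K[X]} (n : ℕ), Intg v P →
      FinitePlace.mk v x ≤ 1 → FinitePlace.mk v (P.eval x ^ n) ≤ 1 := by
    intro v _ P n hP hx
    rw [map_pow]
    exact pow_le_one₀ (apply_nonneg _ _) (intg_eval_one hP hx)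
  have hpw : ∀ v : HeightOneSpectrum (𝓞 K), v ∉ Bad → 1 < FinitePlace.mk v x →
      FinitePlace.mk v (E.eval x) ≤ FinitePlace.mk v x ^ N := by
    intro v hv hvx
    obtain ⟨-, g2, -⟩ := hgood v hv
    have h1 := intg_eval g2 x le_rfl
    rw [max_eq_right hvx.le] at h1
    rw [eEx, map_pow]
    calc FinitePlace.mk v (B.eval x) ^ q ≤ (FinitePlace.mk v x ^ B.natDegree) ^ q :=
          pow_le_pow_left₀ (apply_nonneg _ _) h1 _
      _ = FinitePlace.mk v x ^ N := by rw [← pow_mul, mul_comm, ← hdeg]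
  have local2 : ∀ v : HeightOneSpectrum (𝓞 K), v ∉ Bad → 1 < FinitePlace.mk v x →
      1 < FinitePlace.mk v φ := by
    intro v hv hvx
    obtain ⟨g1, g2, g3, -⟩ := hgood v hv
    have hx0' : 0 < FinitePlace.mk v x := by linarith
    have h1 : FinitePlace.mk v x ^ N ≤ FinitePlace.mk v (F.eval x) := by
      by_cases hA1 : 1 ≤ A.natDegree
      · have h2 := fin_topK hA1 hA rfl g1 hvx
        rw [eFx, map_pow]
        calc FinitePlace.mk v x ^ N = (FinitePlace.mk v x ^ A.natDegree) ^ p := by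
              rw [← pow_mul, mul_comm, ← hN]
          _ ≤ _ := pow_le_pow_left₀ (by positivity) h2 _
      · exfalso
        have : A.natDegree = 0 := by omega
        rw [this, mul_zero] at hN
        omega
    have h2 : FinitePlace.mk v (G.eval x) ≤ FinitePlace.mk v x ^ (N - 1) := by
      rw [eGx, map_mul, map_mul]
      have h3 := intg_eval g3 x le_rfl
      rw [max_eq_right hvx.le] at h3
      have h4 : FinitePlace.mk v (x - 1) ≤ FinitePlace.mk v x := by
        have h5 := fin_add_le v x (-1)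
        rw [map_neg_eq_map, map_one, max_eq_left hvx.le] at h5
        rwa [sub_eq_add_neg]
      calc FinitePlace.mk v x * FinitePlace.mk v (x - 1) * FinitePlace.mk v (U.eval x)
          ≤ FinitePlace.mk v x * FinitePlace.mk v x * FinitePlace.mk v x ^ U.natDegree := by
            refine mul_le_mul (mul_le_mul_of_nonneg_left h4 hx0'.le) h3 (apply_nonneg _ _) (by positivity)
        _ = FinitePlace.mk v x ^ (U.natDegree + 2) := by ring
        _ ≤ FinitePlace.mk v x ^ (N - 1) := by
            refine pow_le_pow_right₀ hvx.le ?_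
            have hA1 : 1 ≤ A.natDegree := by
              by_contra hcon
              have : A.natDegree = 0 := by omega
              rw [this, mul_zero] at hN
              omega
            have hB1 : 1 ≤ B.natDegree := by
              by_contra hcon
              have : B.natDegree = 0 := by omega
              rw [this, mul_zero] at hdeg
              omega
            omega
    have hGp : 0 < FinitePlace.mk v (G.eval x) := FinitePlace.pos_iff.2 hGx
    rw [hφ, map_div₀, one_lt_div hGp]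
    calc FinitePlace.mk v (G.eval x) ≤ FinitePlace.mk v x ^ (N - 1) := h2
      _ < FinitePlace.mk v x ^ N := pow_lt_pow_right₀ hvx (by omega)
      _ ≤ _ := h1
  have hGle : ∀ v : HeightOneSpectrum (𝓞 K), v ∉ Bad → FinitePlace.mk v x ≤ 1 →
      FinitePlace.mk v (G.eval x) ≤ 1 := by
    intro v hv hvx
    obtain ⟨g1, g2, -⟩ := hgood v hv
    rw [eGFE, sub_eq_add_neg]
    refine (fin_add_le v _ _).trans (max_le ?_ ?_)
    · rw [eFx]; exact hIF v hv p g1 hvx
    · rw [map_neg_eq_map, eEx]; exact hIF v hv q g2 hvx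
  have local3 : ∀ v : HeightOneSpectrum (𝓞 K), v ∉ Bad → FinitePlace.mk v x ≤ 1 →
      FinitePlace.mk v (G.eval x) < 1 → 1 < FinitePlace.mk v φ := by
    intro v hv hvx hG1
    obtain ⟨g1, -, -, g4, g5⟩ := hgood v hv
    have hGp : 0 < FinitePlace.mk v (G.eval x) := FinitePlace.pos_iff.2 hGx
    have hFle : FinitePlace.mk v (F.eval x) ≤ 1 := by rw [eFx]; exact hIF v hv p g1 hvx
    have hF1 : FinitePlace.mk v (F.eval x) = 1 := by
      refine le_antisymm hFle ?_
      by_contra hcon
      push Not at hcon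
      have h1 := fin_add_le v (u.eval x * F.eval x) (w.eval x * G.eval x)
      rw [euw, map_one, map_mul, map_mul] at h1
      have h2 := intg_eval_one g4 hvx
      have h3 := intg_eval_one g5 hvx
      have h4 : 0 ≤ FinitePlace.mk v (u.eval x) := apply_nonneg _ _
      have h5 : 0 ≤ FinitePlace.mk v (w.eval x) := apply_nonneg _ _
      have h6 : 0 ≤ FinitePlace.mk v (F.eval x) := apply_nonneg _ _
      rcases le_max_iff.1 h1 with h | h <;> nlinarith
    rw [hφ, map_div₀, hF1, one_lt_div hGp]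
    exact hG1
  refine ⟨φ, ⟨?_, ?_, ?_, ?_⟩, ?_, ?_⟩
  · rw [hφ]; exact div_ne_zero hFx hGx
  · intro h1
    rw [h1, sub_self] at h1φ
    exact div_ne_zero (neg_ne_zero.2 hEx) hGx h1φ.symm
  · -- integrality
    intro v hv
    by_cases hvb : v ∈ Bad
    · exact intAt_of_large (local1 v hvb)
    rcases lt_or_ge 1 (FinitePlace.mk v x) with hvx | hvx
    · exact intAt_of_large (local2 v hvb hvx)
    rcases lt_or_eq_of_le (hGle v hvb hvx) with hG1 | hG1
    · exact intAt_of_large (local3 v hvb hvx hG1)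
    have hGi : v.valuation K (G.eval x)⁻¹ = 1 := by
      rw [map_inv₀, val_one_of_mk hG1, inv_one]
    refine ⟨fun _ _ => ?_, fun _ _ => ?_⟩
    · rw [hφ, eFx, div_eq_mul_inv]
      exact (PowAt.of_pow p v _).mul (PowAt.of_one hGi)
    · rw [h1φ, eEx, div_eq_mul_inv, neg_mul, ← mul_neg]
      refine (PowAt.of_pow q v _).mul (PowAt.of_one ?_)
      rw [Valuation.map_neg, hGi]
  · intro v hv
    have h1 := hnear v (hTT' v hv)
    simp only [← hφ] at h1
    have h2 : min δ (1 / 2) * av v φ ≤ δ * av v φ :=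
      mul_le_mul_of_nonneg_right (min_le_left _ _) (apply_nonneg _ _)
    linarith
  · have := hge x
    rw [dF] at this
    rw [hC, hφ]
    linarith
  · have hsub : J p q S φ ⊆ J 0 0 S x ∪ (lows (U.eval x) ∪ Bad) := by
      rintro v ⟨hvS, hv⟩
      by_cases hvb : v ∈ Bad
      · exact Or.inr (Or.inr hvb)
      rcases lt_or_ge 1 (FinitePlace.mk v x) with hvx | hvx
      · left
        refine ⟨hvS, Or.inl ?_⟩
        by_contra hcon
        exact absurd ((mk_le_one_iff v x).2 (not_lt.1 hcon)) (not_le.2 hvx)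
      rcases lt_or_eq_of_le (hGle v hvb hvx) with hG1 | hG1
      · -- over the cusp `∞`
        by_cases hU1 : FinitePlace.mk v (U.eval x) < 1
        · exact Or.inr (Or.inl hU1)
        left
        have hU2 : FinitePlace.mk v (U.eval x) = 1 :=
          le_antisymm (intg_eval_one (hgood v hvb).2.2.1 hvx) (not_lt.1 hU1)
        rw [eGx, map_mul, map_mul, hU2, mul_one] at hG1
        refine ⟨hvS, Or.inr ?_⟩
        by_cases hxlt : FinitePlace.mk v x < 1
        · exact Or.inl ⟨rfl, (mk_lt_one_iff v x).1 hxlt⟩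
        · right
          refine ⟨rfl, (mk_lt_one_iff v _).1 ?_⟩
          have hxe : FinitePlace.mk v x = 1 := le_antisymm hvx (not_lt.1 hxlt)
          rw [hxe, one_mul] at hG1
          rw [← neg_sub, map_neg_eq_map]
          exact hG1
      · -- integral values
        exfalso
        rcases hv with hv | ⟨hP, -⟩ | ⟨hQ, -⟩
        · have h1 : FinitePlace.mk v φ ≤ 1 := by
            rw [hφ, map_div₀, hG1, div_one, eFx]
            exact hIF v hvb p (hgood v hvb).1 hvx
          exact absurd ((mk_le_one_iff v φ).1 h1) (not_le.2 hv)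
        · omega
        · omega
    have f1 := finite_J (p := 0) (q := 0) (S := S) hx0 hx1
    have f2 := finite_lows hUx
    have h3 := W_mono hsub (f1.union (f2.union hbad))
    have h4 := W_union f1 (f2.union hbad)
    have h5 := W_union f2 hbad
    have h6 := W_lows_le hUx
    have h7 := hDU x
    have hcR : (U.natDegree : ℝ) ≤ N * (1 - 1 / (p : ℝ) - 1 / (q : ℝ)) - (1 - 1 / ((0 : ℕ) : ℝ) - 1 / ((0 : ℕ) : ℝ)) := by
      have hp0 : (p : ℝ) ≠ 0 := by
        have : p ≠ 0 := by omega
        exact_mod_cast this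
      have hq0 : (q : ℝ) ≠ 0 := by
        have : q ≠ 0 := by omega
        exact_mod_cast this
      have e1 : (N : ℝ) * (1 / p) = A.natDegree := by
        rw [hN]; push_cast; field_simp
      have e2 : (N : ℝ) * (1 / q) = B.natDegree := by
        rw [hdeg]; push_cast; field_simp
      have h8 : ((U.natDegree + A.natDegree + B.natDegree + 1 : ℕ) : ℝ) ≤ (N : ℕ) := by
        exact_mod_cast hcount
      push_cast at h8
      have e3 : (1 : ℝ) / ((0 : ℕ) : ℝ) = 0 := by simp
      rw [e3, mul_sub, mul_sub, e1, e2]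
      linarith
    have h8 := mul_le_mul_of_nonneg_right hcR (D_nonneg x)
    change W (J p q S φ) ≤ W (J 0 0 S x) + _ + C
    rw [hC]
    linarith

end Pool.Agent.N757.AS
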