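import Pool.Agent.N757.TL.Tr

/-!
# Project AS (helper757): the abc conjecture over a larger field
-/

set_option autoImplicit false

namespace Pool.Agent.N757.AS

open NumberField Pool.Agent.N757.RD Pool.Agent.N757.TL

/-- **AS/DESC** the abc conjecture over a larger number field implies the one over the smaller field -/
def StmDesc : Prop := ∀ (K L : Type) [Field K] [NumberField K] [Field L] [NumberField L] [Algebra K L],
  ABC L → ABC K

end Pool.Agent.N757.AS
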