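import Pool.Agent.N757.AS.CoverM
import Pool.Agent.N757.AS.Stm2
import Pool.Agent.N999.AS.CMP
import Pool.Agent.N608.AS.FLD
import Pool.Agent.N277.AS.DATA
import Pool.Agent.N862.AS.DESC
import Pool.Agent.N134.AS.TWO
import Pool.Agent.N383.AS.COP
import Pool.Agent.N8.AS.DZ

/-!
# Stacky lines: all signatures over large fields
-/

set_option autoImplicit false

namespace Pool.Agent.N757.AS

open NumberField IsDedekindDomain Height Real Polynomial Pool.Agent.N757.RD Pool.Agent.N757.TL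
  Pool.Agent.N757.SL

theorem fld : StmFld :=
  Pool.Agent.N608.AS.FLD.t (Pool.Agent.N277.AS.DATA.t Pool.Agent.N8.AS.DZ.t Pool.Agent.N383.AS.t
    Pool.Agent.N134.AS.t)

/-- the orders are not one and not both two if the degree is positive -/
theorem orders {p q : ℕ} (h : 0 < 1 - 1 / (p : ℝ) - 1 / (q : ℝ)) :
    (p = 0 ∨ 2 ≤ p) ∧ (q = 0 ∨ 2 ≤ q) ∧ ¬ (p = 2 ∧ q = 2) := by
  have h1 : (0 : ℝ) ≤ 1 / (p : ℝ) := by positivity
  have h2 : (0 : ℝ) ≤ 1 / (q : ℝ) := by positivity
  refine ⟨?_, ?_, ?_⟩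
  · by_contra hcon
    have : p = 1 := by omega
    rw [this] at h
    norm_num at h
    linarith
  · by_contra hcon
    have : q = 1 := by omega
    rw [this] at h
    norm_num at h
    linarith
  · rintro ⟨rfl, rfl⟩
    norm_num at h

theorem exists_field (p q : ℕ) (h : 0 < 1 - 1 / (p : ℝ) - 1 / (q : ℝ)) :
    ∃ (k : Type) (_ : Field k) (_ : NumberField k), ∀ (K : Type) [Field K] [NumberField K],
      (k →+* K) → ∀ S : Set (HeightOneSpectrum (𝓞 K)), Some' p q S → ABC K := by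
  obtain ⟨h1, h2, h3⟩ := orders h
  have key : ∀ n : ℕ, n = 0 ∨ 2 ≤ n → Signature n 0 := by
    intro n hn
    rcases hn with rfl | hn
    · exact Signature.cusps
    · have h1 := Signature.mean (p := 0) (q := 0) 1 (n - 1) le_rfl (by omega) (by ring)
        Signature.cusps
      rwa [zero_mul, show 1 + (n - 1) = n by omega] at h1
  rcases h1 with rfl | h1
  · exact ⟨ℚ, inferInstance, inferInstance, fun K _ _ _ S hS =>
      converse (key q h2).swap S hS⟩
  rcases h2 with rfl | h2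
  · exact ⟨ℚ, inferInstance, inferInstance, fun K _ _ _ S hS =>
      converse (key p (Or.inr h1)) S hS⟩
  obtain ⟨k, i1, i2, hk⟩ := fld p q h1 h2 h3
  refine ⟨k, i1, i2, fun K _ _ f S hS => ?_⟩
  obtain ⟨A, B, U, hD⟩ := hk K f
  exact some_zero S (coverK h1 h2 h3 hD S hS)

/-- the cofinal form -/
theorem global (p q : ℕ) (h : 0 < 1 - 1 / (p : ℝ) - 1 / (q : ℝ))
    (H : ∀ (K : Type) [Field K] [NumberField K], ∃ (L : Type) (_ : Field L) (_ : NumberField L)
      (_ : Algebra K L) (S : Set (HeightOneSpectrum (𝓞 L))), Some' p q S)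
    (K : Type) [Field K] [NumberField K] : ABC K := by
  obtain ⟨k, i1, i2, hk⟩ := exists_field p q h
  obtain ⟨M, j1, j2, j3, ⟨f⟩⟩ := Pool.Agent.N999.AS.CMP.t k K
  obtain ⟨L, l1, l2, l3, S, hS⟩ := H M
  have hL : ABC L := hk L ((algebraMap M L).comp f) S hS
  letI : Algebra K L := ((algebraMap M L).comp (algebraMap K M)).toAlgebra
  exact Pool.Agent.N862.AS.DESC.t K L hL

end Pool.Agent.N757.AS
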